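import Pool.Agent.X178.Tor.Emb

/-! Closeness of the metrics `du² + (2 + c cos u)² dv²` to the one with `c = 1`. -/

namespace Pool.Agent.X178.Tor

open Set Filter MeasureTheory
open scoped ContDiff Topology ENNReal

theorem reduce_gen {α : Type*} {f : ℝ × ℝ → α}
    (hf : ∀ u v : ℝ, f (u + 2 * Real.pi, v) = f (u, v) ∧ f (u, v + 2 * Real.pi) = f (u, v))
    (x : ℝ × ℝ) :
    ∃ y : ℝ × ℝ, y ∈ Icc (-Real.pi) Real.pi ×ˢ Icc (-Real.pi) Real.pi ∧ f y = f x := by
  have hp : (0 : ℝ) < 2 * Real.pi := by positivity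
  have h1 : ∀ v, Function.Periodic (fun u => f (u, v)) (2 * Real.pi) := fun v u => (hf u v).1
  have h2 : ∀ u, Function.Periodic (fun v => f (u, v)) (2 * Real.pi) := fun u v => (hf u v).2
  refine ⟨(toIcoMod hp (-Real.pi) x.1, toIcoMod hp (-Real.pi) x.2), ⟨?_, ?_⟩, ?_⟩
  · have := toIcoMod_mem_Ico hp (-Real.pi) x.1
    exact ⟨this.1, by linarith [this.2]⟩
  · have := toIcoMod_mem_Ico hp (-Real.pi) x.2
    exact ⟨this.1, by linarith [this.2]⟩
  · have e1 := (h1 (toIcoMod hp (-Real.pi) x.2)).sub_zsmul_eq (x := x.1)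
      (n := toIcoDiv hp (-Real.pi) x.1)
    have e2 := (h2 x.1).sub_zsmul_eq (x := x.2) (n := toIcoDiv hp (-Real.pi) x.2)
    refine Eq.trans ?_ (e1.trans ?_)
    · rfl
    · exact e2

theorem iter_bdd {φ : ℝ × ℝ → ℝ} (hs : ContDiff ℝ ∞ φ)
    (hp : ∀ u v : ℝ, φ (u + 2 * Real.pi, v) = φ (u, v) ∧ φ (u, v + 2 * Real.pi) = φ (u, v)) (n : ℕ) :
    ∃ B : ℝ, 0 ≤ B ∧ ∀ x, ‖iteratedFDeriv ℝ n φ x‖ ≤ B := by
  have hc : Continuous (fun x => ‖iteratedFDeriv ℝ n φ x‖) :=
    (hs.continuous_iteratedFDeriv (m := n) (by exact_mod_cast le_top)).norm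
  have hK : IsCompact (Icc (-Real.pi) Real.pi ×ˢ Icc (-Real.pi) Real.pi) :=
    isCompact_Icc.prod isCompact_Icc
  obtain ⟨B, hB⟩ := hK.exists_bound_of_continuousOn hc.continuousOn
  have hper : ∀ u v : ℝ, (fun x => ‖iteratedFDeriv ℝ n φ x‖) (u + 2 * Real.pi, v) =
      (fun x => ‖iteratedFDeriv ℝ n φ x‖) (u, v) ∧
      (fun x => ‖iteratedFDeriv ℝ n φ x‖) (u, v + 2 * Real.pi) =
      (fun x => ‖iteratedFDeriv ℝ n φ x‖) (u, v) := by
    intro u v
    have q1 : (fun x : ℝ × ℝ => φ (x + (2 * Real.pi, 0))) = φ := by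
      funext x
      have := (hp x.1 x.2).1
      rw [← this]
      congr 1
      ext <;> simp
    have q2 : (fun x : ℝ × ℝ => φ (x + (0, 2 * Real.pi))) = φ := by
      funext x
      have := (hp x.1 x.2).2
      rw [← this]
      congr 1
      ext <;> simp
    constructor
    · have := iteratedFDeriv_comp_add_right (𝕜 := ℝ) (f := φ) n (2 * Real.pi, (0 : ℝ)) (u, v)
      rw [q1] at this
      simp only [this]
      simp
    · have := iteratedFDeriv_comp_add_right (𝕜 := ℝ) (f := φ) n ((0 : ℝ), 2 * Real.pi) (u, v)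
      rw [q2] at this
      simp only [this]
      simp
  refine ⟨max B 0, le_max_right _ _, fun x => ?_⟩
  obtain ⟨y, hy, hyx⟩ := reduce_gen (f := fun x => ‖iteratedFDeriv ℝ n φ x‖) hper x
  rw [← hyx]
  have := hB y hy
  rw [norm_norm] at this
  exact this.trans (le_max_left _ _)

theorem tensorDist_rev {c : ℝ} (h0 : 0 ≤ c) (h1 : c ≤ 1) (x : ℝ × ℝ) :
    tensorDist (revMetric c h0 h1) (revMetric 1 zero_le_one le_rfl) x ≤ 6 * (1 - c) := by
  have hp : 1 ≤ 2 + 1 * Real.cos x.1 := rev_pos zero_le_one le_rfl x.1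
  set p := (2 + 1 * Real.cos x.1) ^ 2 with hpd
  have hp1 : 1 ≤ p := by nlinarith
  set q := (2 + c * Real.cos x.1) ^ 2 with hq
  have e1 : (revMetric 1 zero_le_one le_rfl).g x = Matrix.diagonal ![1, p] := rfl
  have e2 : (revMetric c h0 h1).g x = Matrix.diagonal ![1, q] := rfl
  have e3 : (Matrix.diagonal ![1, p])⁻¹ = Matrix.diagonal ![1, p⁻¹] := by
    apply Matrix.inv_eq_right_inv
    rw [Matrix.diagonal_mul_diagonal]
    ext i j
    fin_cases i <;> fin_cases j <;> simp [Matrix.diagonal]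
    field_simp
  rw [tensorDist, e1, e2, e3, Matrix.diagonal_sub, Matrix.diagonal_mul_diagonal,
    Matrix.diagonal_mul_diagonal, Matrix.trace_diagonal, Fin.sum_univ_two]
  simp only [Matrix.cons_val_zero, Matrix.cons_val_one]
  have e4 : (1 : ℝ) * (1 - 1) * (1 * (1 - 1)) + p⁻¹ * (q - p) * (p⁻¹ * (q - p)) =
      (p⁻¹ * (q - p)) ^ 2 := by ring
  rw [e4, Real.sqrt_sq_eq_abs, abs_mul, abs_of_nonneg (by positivity : (0 : ℝ) ≤ p⁻¹)]
  have e5 : |q - p| ≤ 6 * (1 - c) := by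
    have : q - p = (c - 1) * (Real.cos x.1 * (4 + (c + 1) * Real.cos x.1)) := by
      rw [hq, hpd]; ring
    rw [this, abs_mul, abs_of_nonpos (by linarith : c - 1 ≤ 0), abs_mul]
    have k1 := Real.abs_cos_le_one x.1
    have k2 : |4 + (c + 1) * Real.cos x.1| ≤ 6 := by
      have := abs_le.mp k1
      rw [abs_le]; constructor <;> nlinarith
    have k3 : |Real.cos x.1| * |4 + (c + 1) * Real.cos x.1| ≤ 1 * 6 :=
      mul_le_mul k1 k2 (abs_nonneg _) zero_le_one
    nlinarith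
  calc p⁻¹ * |q - p| ≤ 1 * |q - p| := by
        apply mul_le_mul_of_nonneg_right _ (abs_nonneg _)
        exact inv_le_one_of_one_le₀ hp1
    _ ≤ 6 * (1 - c) := by rw [one_mul]; exact e5

theorem iter_close (k : ℕ) : ∃ B : ℝ, 0 ≤ B ∧ ∀ (c : ℝ) (h0 : 0 ≤ c) (h1 : c ≤ 1), ∀ n ≤ k,
    ∀ i j x, ‖iteratedFDeriv ℝ n (fun y => (revMetric c h0 h1).g y i j -
      (revMetric 1 zero_le_one le_rfl).g y i j) x‖ ≤ B * (1 - c) := by
  have s1 : ContDiff ℝ ∞ (fun x : ℝ × ℝ => 4 * Real.cos x.1) :=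
    contDiff_const.mul (Real.contDiff_cos.comp contDiff_fst)
  have s2 : ContDiff ℝ ∞ (fun x : ℝ × ℝ => Real.cos x.1 ^ 2) :=
    (Real.contDiff_cos.comp contDiff_fst).pow 2
  have b1 := iter_bdd s1 (by intro u v; simp [Real.cos_add_two_pi])
  have b2 := iter_bdd s2 (by intro u v; simp [Real.cos_add_two_pi])
  choose B1 hB1 hb1 using b1
  choose B2 hB2 hb2 using b2
  refine ⟨∑ n ∈ Finset.range (k + 1), (B1 n + 2 * B2 n), ?_, ?_⟩
  · apply Finset.sum_nonneg
    intro n _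
    have := hB1 n; have := hB2 n
    positivity
  · intro c h0 h1 n hn i j x
    have hsum : B1 n + 2 * B2 n ≤ ∑ n ∈ Finset.range (k + 1), (B1 n + 2 * B2 n) := by
      apply Finset.single_le_sum (f := fun n => B1 n + 2 * B2 n)
      · intro m _
        have := hB1 m; have := hB2 m
        positivity
      · exact Finset.mem_range.mpr (by omega)
    have hnn : 0 ≤ (∑ n ∈ Finset.range (k + 1), (B1 n + 2 * B2 n)) * (1 - c) := by
      apply mul_nonneg _ (by linarith)
      have := hB1 n; have := hB2 n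
      linarith
    have hzero : ∀ n, iteratedFDeriv ℝ n (fun _ : ℝ × ℝ => (0 : ℝ)) x = 0 := by
      intro n
      rw [iteratedFDeriv_fun_zero]
      rfl
    by_cases hij : i = 1 ∧ j = 1
    · obtain ⟨rfl, rfl⟩ := hij
      have e : (fun y => (revMetric c h0 h1).g y 1 1 - (revMetric 1 zero_le_one le_rfl).g y 1 1) =
          (c - 1) • (fun y : ℝ × ℝ => 4 * Real.cos y.1) +
            (c ^ 2 - 1) • (fun y : ℝ × ℝ => Real.cos y.1 ^ 2) := by
        funext y
        simp [revMetric, revMat]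
        ring
      have hn' : ((n : ℕ∞) : WithTop ℕ∞) ≤ ((⊤ : ℕ∞) : WithTop ℕ∞) := by exact_mod_cast le_top
      have t1 : ContDiff ℝ n (fun x : ℝ × ℝ => 4 * Real.cos x.1) := s1.of_le hn'
      have t2 : ContDiff ℝ n (fun x : ℝ × ℝ => Real.cos x.1 ^ 2) := s2.of_le hn'
      have t1' : ContDiff ℝ n ((c - 1) • (fun y : ℝ × ℝ => 4 * Real.cos y.1)) := t1.const_smul (c - 1)
      have t2' : ContDiff ℝ n ((c ^ 2 - 1) • (fun y : ℝ × ℝ => Real.cos y.1 ^ 2)) :=
        t2.const_smul (c ^ 2 - 1)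
      rw [e, iteratedFDeriv_add_apply t1'.contDiffAt t2'.contDiffAt]
      rw [iteratedFDeriv_const_smul_apply t1.contDiffAt, iteratedFDeriv_const_smul_apply t2.contDiffAt]
      refine (norm_add_le _ _).trans ?_
      rw [norm_smul, norm_smul, Real.norm_eq_abs, Real.norm_eq_abs,
        abs_of_nonpos (by linarith : c - 1 ≤ 0), abs_of_nonpos (by nlinarith : c ^ 2 - 1 ≤ 0)]
      have r1 := hb1 n x
      have r2 := hb2 n x
      have r3 : -(c ^ 2 - 1) ≤ 2 * (1 - c) := by nlinarith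
      have r4 : -(c ^ 2 - 1) * ‖iteratedFDeriv ℝ n (fun y : ℝ × ℝ => Real.cos y.1 ^ 2) x‖ ≤
          2 * (1 - c) * B2 n := mul_le_mul r3 r2 (norm_nonneg _) (by linarith)
      have r5 : -(c - 1) * ‖iteratedFDeriv ℝ n (fun y : ℝ × ℝ => 4 * Real.cos y.1) x‖ ≤
          (1 - c) * B1 n := mul_le_mul (by linarith) r1 (norm_nonneg _) (by linarith)
      nlinarith
    · have e : (fun y => (revMetric c h0 h1).g y i j - (revMetric 1 zero_le_one le_rfl).g y i j) =
          fun _ => 0 := by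
        funext y
        fin_cases i <;> fin_cases j <;> simp_all [revMetric, revMat, Matrix.diagonal]
      rw [e, hzero, norm_zero]
      exact hnn

/-- **Main theorem, tori of revolution.** -/
theorem main_rev : ∃ g₀ : TorusMetric,
    (∀ x, g₀.g x = Matrix.diagonal ![1, (2 + Real.cos x.1) ^ 2]) ∧
    (∃ f₀, IsIsometricEmbedding g₀ f₀) ∧
    ∀ (ε : ℝ) (k : ℕ), 0 < ε → ∃ g : TorusMetric,
      c0Dist g g₀ < ENNReal.ofReal ε ∧
      (∀ n ≤ k, ∀ i j x, ‖iteratedFDeriv ℝ n (fun y => g.g y i j - g₀.g y i j) x‖ < ε) ∧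
      ¬ ∃ f, IsIsometricImmersion g f := by
  refine ⟨revMetric 1 zero_le_one le_rfl, ?_, ⟨torusEmb, torusEmb_isometric⟩, ?_⟩
  · intro x
    simp [revMetric, revMat]
  · intro ε k hε
    obtain ⟨B, hB, hb⟩ := iter_close k
    set δ := min (1 / 2) (ε / (2 * (6 + B))) with hδ
    have h6 : 0 < 6 + B := by linarith
    have hδ0 : 0 < δ := lt_min (by norm_num) (by positivity)
    have hδ1 : δ ≤ 1 / 2 := min_le_left _ _
    have hδ2 : δ * (6 + B) ≤ ε / 2 := by
      have : δ ≤ ε / (2 * (6 + B)) := min_le_right _ _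
      calc δ * (6 + B) ≤ ε / (2 * (6 + B)) * (6 + B) := by gcongr
        _ = ε / 2 := by field_simp
    have h0 : 0 ≤ 1 - δ := by linarith
    have h1 : 1 - δ ≤ 1 := by linarith
    refine ⟨revMetric (1 - δ) h0 h1, ?_, ?_, ?_⟩
    · calc c0Dist (revMetric (1 - δ) h0 h1) (revMetric 1 zero_le_one le_rfl)
          ≤ ENNReal.ofReal (6 * δ) := by
            apply iSup_le
            intro x
            apply ENNReal.ofReal_le_ofReal
            have := tensorDist_rev h0 h1 x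
            linarith
        _ < ENNReal.ofReal ε := by
            rw [ENNReal.ofReal_lt_ofReal_iff hε]
            nlinarith
    · intro n hn i j x
      have := hb (1 - δ) h0 h1 n hn i j x
      nlinarith
    · rintro ⟨f, hsm, hper, hmet⟩
      apply no_immersion (c := 1 - δ) (by linarith) (by linarith) (f := f) hper hsm
      intro x w
      rw [hmet, rev_quad]

end Pool.Agent.X178.Tor
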