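import Pool.Agent.X178.Tor.Max

/-! The cone over the Gauss image, and the lower bound `4π` for the total positive curvature. -/

namespace Pool.Agent.X178.Tor

set_option linter.unusedSectionVars false

open Set Filter MeasureTheory
open scoped ContDiff Topology ENNReal

/-- last two coordinates -/
noncomputable def q2 : E3 →L[ℝ] ℝ × ℝ :=
  (EuclideanSpace.proj (𝕜 := ℝ) (1 : Fin 3)).prod (EuclideanSpace.proj (𝕜 := ℝ) (2 : Fin 3))

theorem q2_apply (y : E3) : q2 y = (y 1, y 2) := rfl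

/-- the cone map of the Gauss map -/
noncomputable def cone (h : ℝ → ℝ) (f : ℝ × ℝ → E3) (y : E3) : E3 := y 0 • nor h f (q2 y)

theorem tri_smul (n a b : E3) (r : ℝ) : tri n (r • a) (r • b) = r ^ 2 * tri n a b := by
  simp only [tri, inn3, cr_zero, cr_one, cr_two, PiLp.smul_apply, smul_eq_mul]
  ring

/-- two periodic functions -/
def Per (f : ℝ × ℝ → E3) : Prop :=
  ∀ u v : ℝ, f (u + 2 * Real.pi, v) = f (u, v) ∧ f (u, v + 2 * Real.pi) = f (u, v)

theorem Per.reduce {f : ℝ × ℝ → E3} (hf : Per f) (x : ℝ × ℝ) :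
    ∃ y : ℝ × ℝ, y.1 ∈ Icc (-Real.pi) Real.pi ∧ y.2 ∈ Icc (-Real.pi) Real.pi ∧ f y = f x := by
  have hp : (0 : ℝ) < 2 * Real.pi := by positivity
  have h1 : ∀ v, Function.Periodic (fun u => f (u, v)) (2 * Real.pi) := fun v u => (hf u v).1
  have h2 : ∀ u, Function.Periodic (fun v => f (u, v)) (2 * Real.pi) := fun u v => (hf u v).2
  refine ⟨(toIcoMod hp (-Real.pi) x.1, toIcoMod hp (-Real.pi) x.2), ?_, ?_, ?_⟩
  · have := toIcoMod_mem_Ico hp (-Real.pi) x.1
    exact ⟨this.1, by linarith [this.2]⟩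
  · have := toIcoMod_mem_Ico hp (-Real.pi) x.2
    exact ⟨this.1, by linarith [this.2]⟩
  · have e1 := (h1 (toIcoMod hp (-Real.pi) x.2)).sub_zsmul_eq (x := x.1)
      (n := toIcoDiv hp (-Real.pi) x.1)
    have e2 := (h2 x.1).sub_zsmul_eq (x := x.2) (n := toIcoDiv hp (-Real.pi) x.2)
    refine Eq.trans ?_ (e1.trans ?_)
    · rfl
    · exact e2

namespace RevImm

variable {h : ℝ → ℝ} {f : ℝ × ℝ → E3} (H : RevImm h f)

include H

theorem hasFDerivAt_cone (y : E3) : HasFDerivAt (cone h f)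
    (colMap (nor h f (q2 y)) (y 0 • D1 (nor h f) (q2 y)) (y 0 • D2 (nor h f) (q2 y))) y := by
  have h0 : HasFDerivAt (fun y : E3 => y 0) (EuclideanSpace.proj (𝕜 := ℝ) (0 : Fin 3)) y :=
    (EuclideanSpace.proj (𝕜 := ℝ) (0 : Fin 3)).hasFDerivAt
  have h1 : HasFDerivAt (fun y : E3 => nor h f (q2 y))
      ((fderiv ℝ (nor h f) (q2 y)).comp q2) y :=
    ((diff_of H.smooth_nor (q2 y)).hasFDerivAt).comp y q2.hasFDerivAt
  have h2 := h0.smul h1
  refine h2.congr_fderiv ?_
  ext w : 1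
  rw [colMap_apply]
  simp only [add_apply, smul_apply,
    ContinuousLinearMap.comp_apply, ContinuousLinearMap.smulRight_apply, fderiv_eq]
  simp only [q2_apply]
  change y.ofLp 0 • (w.ofLp 1 • _ + w.ofLp 2 • _) + w.ofLp 0 • _ = _
  module

theorem det_cone (y : E3) :
    |(colMap (nor h f (q2 y)) (y 0 • D1 (nor h f) (q2 y)) (y 0 • D2 (nor h f) (q2 y))).det| =
      y 0 ^ 2 * |deriv (deriv h) (y 1)| := by
  rw [det_colMap, tri_smul, abs_mul, H.tri_nor, abs_of_nonneg (sq_nonneg _)]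
  rfl

theorem volume_image_le {S : Set E3} (hS : MeasurableSet S) :
    volume (cone h f '' S) ≤ ∫⁻ y in S, ENNReal.ofReal (y 0 ^ 2 * |deriv (deriv h) (y 1)|) := by
  have := addHaar_image_le_lintegral_abs_det_fderiv volume hS
    (f' := fun y => colMap (nor h f (q2 y)) (y 0 • D1 (nor h f) (q2 y)) (y 0 • D2 (nor h f) (q2 y)))
    (fun y _ => (H.hasFDerivAt_cone y).hasFDerivWithinAt)
  simpa only [H.det_cone] using this

/-- every unit vector is a normal, up to sign, at a point of nonnegative curvature -/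
theorem surj (hf : Per f) {n : E3} (hn : inner ℝ n n = (1 : ℝ)) :
    ∃ x : ℝ × ℝ, x.1 ∈ Icc (-Real.pi) Real.pi ∧ x.2 ∈ Icc (-Real.pi) Real.pi ∧
      deriv (deriv h) x.1 ≤ 0 ∧
      ((nor h f x = n ∧ inner ℝ (nor h f x) (D1 (D1 f) x) ≤ 0 ∧
        inner ℝ (nor h f x) (D2 (D2 f) x) ≤ 0) ∨
      (nor h f x = -n ∧ 0 ≤ inner ℝ (nor h f x) (D1 (D1 f) x) ∧
        0 ≤ inner ℝ (nor h f x) (D2 (D2 f) x))) := by
  have hK : IsCompact (Icc (-Real.pi) Real.pi ×ˢ Icc (-Real.pi) Real.pi) :=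
    isCompact_Icc.prod isCompact_Icc
  have hne : (Icc (-Real.pi) Real.pi ×ˢ Icc (-Real.pi) Real.pi).Nonempty :=
    ⟨(0, 0), ⟨by simp [Real.pi_pos.le], by simp [Real.pi_pos.le]⟩⟩
  have hcont : Continuous (fun y => inner ℝ (f y) n) :=
    H.smooth.continuous.inner continuous_const
  obtain ⟨x, hx, hmax⟩ := hK.exists_isMaxOn hne hcont.continuousOn
  have hmax' : ∀ y, inner ℝ (f y) n ≤ inner ℝ (f x) n := by
    intro y
    obtain ⟨z, hz1, hz2, hz⟩ := hf.reduce y
    rw [← hz]
    exact hmax (show z ∈ _ from ⟨hz1, hz2⟩)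
  exact ⟨x, hx.1, hx.2, H.at_max hn hmax'⟩

/-- **Total positive curvature.** -/
theorem total_curvature (hf : Per f) :
    volume (Metric.ball (0 : E3) 1) ≤
      ∫⁻ y in {y : E3 | y 0 ∈ Ioo (0 : ℝ) 1 ∧ y 1 ∈ Icc (-Real.pi) Real.pi ∧
        y 2 ∈ Icc (-Real.pi) Real.pi ∧ deriv (deriv h) (y 1) ≤ 0},
        ENNReal.ofReal (y 0 ^ 2 * |deriv (deriv h) (y 1)|) := by
  set S : Set E3 := {y : E3 | y 0 ∈ Ioo (0 : ℝ) 1 ∧ y 1 ∈ Icc (-Real.pi) Real.pi ∧
        y 2 ∈ Icc (-Real.pi) Real.pi ∧ deriv (deriv h) (y 1) ≤ 0} with hS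
  set L : E3 → ℝ := fun y => inner ℝ (nor h f (q2 y)) (D1 (D1 f) (q2 y)) with hL
  set M : E3 → ℝ := fun y => inner ℝ (nor h f (q2 y)) (D2 (D1 f) (q2 y)) with hM
  set P : E3 → ℝ := fun y => inner ℝ (nor h f (q2 y)) (D2 (D2 f) (q2 y)) with hP
  have cL : Continuous L := (H.smooth_nor.continuous.comp q2.continuous).inner
    (H.sD11.continuous.comp q2.continuous)
  have cP : Continuous P := (H.smooth_nor.continuous.comp q2.continuous).inner
    (H.sD22.continuous.comp q2.continuous)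
  have cd : Continuous (deriv (deriv h)) := (H.smooth_h.iterate_deriv 2).continuous
  have c0 : ∀ i : Fin 3, Continuous (fun y : E3 => y i) := fun i =>
    (EuclideanSpace.proj (𝕜 := ℝ) i).continuous
  have mS : MeasurableSet S := by
    refine MeasurableSet.inter ?_ (MeasurableSet.inter ?_ (MeasurableSet.inter ?_ ?_))
    · exact (isOpen_Ioo.preimage (c0 0)).measurableSet
    · exact (isClosed_Icc.preimage (c0 1)).measurableSet
    · exact (isClosed_Icc.preimage (c0 2)).measurableSet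
    · exact (isClosed_le (cd.comp (c0 1)) continuous_const).measurableSet
  set Sp : Set E3 := S ∩ {y | L y ≤ 0 ∧ P y ≤ 0} with hSp
  set Sm : Set E3 := S ∩ {y | 0 ≤ L y ∧ 0 ≤ P y} with hSm
  have mSp : MeasurableSet Sp := mS.inter
    (((isClosed_le cL continuous_const).inter (isClosed_le cP continuous_const)).measurableSet)
  have mSm : MeasurableSet Sm := mS.inter
    (((isClosed_le continuous_const cL).inter (isClosed_le continuous_const cP)).measurableSet)
  set g : E3 → ℝ≥0∞ := fun y => ENNReal.ofReal (y 0 ^ 2 * |deriv (deriv h) (y 1)|) with hg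
  have mg : Measurable g := by
    apply Measurable.ennreal_ofReal
    exact (((c0 0).pow 2).mul ((cd.comp (c0 1)).abs)).measurable
  -- covering
  have hcov : Metric.ball (0 : E3) 1 ⊆ {0} ∪ (cone h f '' Sp ∪ -(cone h f '' Sm)) := by
    intro z hz
    by_cases hz0 : z = 0
    · left; exact hz0
    · right
      have hzn : 0 < ‖z‖ := norm_pos_iff.mpr hz0
      have hz1 : ‖z‖ < 1 := by simpa using hz
      have hn : inner ℝ (‖z‖⁻¹ • z) (‖z‖⁻¹ • z) = (1 : ℝ) := by
        rw [real_inner_self_eq_norm_sq, norm_smul, norm_inv, norm_norm]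
        field_simp
      obtain ⟨x, hx1, hx2, hd, hx⟩ := H.surj hf hn
      have hy0 : (!₂[‖z‖, x.1, x.2] : E3) 0 = ‖z‖ := rfl
      have hy1 : (!₂[‖z‖, x.1, x.2] : E3) 1 = x.1 := rfl
      have hy2 : (!₂[‖z‖, x.1, x.2] : E3) 2 = x.2 := rfl
      have hq : q2 (!₂[‖z‖, x.1, x.2] : E3) = x := by rw [q2_apply, hy1, hy2]
      have hyS : (!₂[‖z‖, x.1, x.2] : E3) ∈ S := by
        refine ⟨?_, ?_, ?_, ?_⟩
        · rw [hy0]; exact ⟨hzn, hz1⟩
        · rw [hy1]; exact hx1
        · rw [hy2]; exact hx2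
        · rw [hy1]; exact hd
      have hzz : ‖z‖ • (‖z‖⁻¹ • z) = z := by rw [smul_smul, mul_inv_cancel₀ hzn.ne', one_smul]
      rcases hx with ⟨e1, e2, e3⟩ | ⟨e1, e2, e3⟩
      · left
        refine ⟨!₂[‖z‖, x.1, x.2], ⟨hyS, ?_, ?_⟩, ?_⟩
        · simp only [hL, hq]; exact e2
        · simp only [hP, hq]; exact e3
        · rw [cone, hq, hy0, e1, hzz]
      · right
        refine ⟨!₂[‖z‖, x.1, x.2], ⟨hyS, ?_, ?_⟩, ?_⟩
        · simp only [hL, hq]; exact e2
        · simp only [hP, hq]; exact e3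
        · rw [cone, hq, hy0, e1, smul_neg, hzz]
  calc volume (Metric.ball (0 : E3) 1)
      ≤ volume ({0} ∪ (cone h f '' Sp ∪ -(cone h f '' Sm))) := measure_mono hcov
    _ ≤ volume ({0} : Set E3) + (volume (cone h f '' Sp) + volume (-(cone h f '' Sm))) :=
        (measure_union_le _ _).trans (add_le_add le_rfl (measure_union_le _ _))
    _ = volume (cone h f '' Sp) + volume (cone h f '' Sm) := by
        rw [measure_singleton, zero_add, Measure.measure_neg]
    _ ≤ (∫⁻ y in Sp, g y) + ∫⁻ y in Sm, g y :=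
        add_le_add (H.volume_image_le mSp) (H.volume_image_le mSm)
    _ = ∫⁻ y, (Sp.indicator g y + Sm.indicator g y) := by
        rw [lintegral_add_left (mg.indicator mSp), lintegral_indicator mSp, lintegral_indicator mSm]
    _ ≤ ∫⁻ y, S.indicator g y := by
        apply lintegral_mono
        intro y
        change Sp.indicator g y + Sm.indicator g y ≤ S.indicator g y
        by_cases h1 : y ∈ Sp
        · by_cases h2 : y ∈ Sm
          · have hL0 : L y = 0 := le_antisymm h1.2.1 h2.2.1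
            have hP0 : P y = 0 := le_antisymm h1.2.2 h2.2.2
            have hgg := H.gauss' (q2 y)
            have e1 : L y * P y - M y ^ 2 = -(h (y 1) * deriv (deriv h) (y 1)) := hgg
            rw [hL0, zero_mul, zero_sub] at e1
            have hpos := H.pos (y 1)
            have hdy : deriv (deriv h) (y 1) ≤ 0 := h1.1.2.2.2
            have hd0 : deriv (deriv h) (y 1) = 0 := by
              nlinarith [sq_nonneg (M y)]
            have hg0 : g y = 0 := by simp [hg, hd0]
            simp [indicator, hg0]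
          · rw [indicator_of_notMem h2, add_zero, indicator_of_mem h1,
              indicator_of_mem (h1.1 : y ∈ S)]
        · rw [indicator_of_notMem h1, zero_add]
          by_cases h2 : y ∈ Sm
          · rw [indicator_of_mem h2, indicator_of_mem (h2.1 : y ∈ S)]
          · rw [indicator_of_notMem h2]; simp
    _ = ∫⁻ y in S, g y := lintegral_indicator mS _

end RevImm

end Pool.Agent.X178.Tor
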