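import Mathlib

/-! Definitions: smooth Riemannian metrics on the torus, isometric immersions and embeddings into
Euclidean three-space, the `C⁰` distance of two metrics. -/

namespace Pool.Agent.X178.Tor

open scoped ContDiff ENNReal

/-- Euclidean three-space -/
abbrev E3 := EuclideanSpace ℝ (Fin 3)

/-- A smooth Riemannian metric on the torus `T² = ℝ² / (2πℤ)²`: a symmetric positive definite matrix
`g x` for every point `x` of the plane, with smooth entries, periodic in both variables. -/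
structure TorusMetric where
  g : ℝ × ℝ → Matrix (Fin 2) (Fin 2) ℝ
  smooth : ∀ i j, ContDiff ℝ ∞ fun x => g x i j
  periodic : ∀ u v : ℝ, g (u + 2 * Real.pi, v) = g (u, v) ∧ g (u, v + 2 * Real.pi) = g (u, v)
  posDef : ∀ x, (g x).PosDef

/-- The value `g_x (w, w)` of a metric on a tangent vector. -/
noncomputable def TorusMetric.quad (G : TorusMetric) (x w : ℝ × ℝ) : ℝ :=
  ![w.1, w.2] ⬝ᵥ (G.g x).mulVec ![w.1, w.2]

/-- A smooth isometric immersion of `(T², g)` into Euclidean space `ℝ³`: a smooth map of the plane,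
periodic in both variables, with `|df_x (w)|² = g_x (w, w)` for all `x` and `w`. -/
def IsIsometricImmersion (G : TorusMetric) (f : ℝ × ℝ → E3) : Prop :=
  ContDiff ℝ ∞ f ∧
  (∀ u v : ℝ, f (u + 2 * Real.pi, v) = f (u, v) ∧ f (u, v + 2 * Real.pi) = f (u, v)) ∧
  ∀ x w : ℝ × ℝ, ‖fderiv ℝ f x w‖ ^ 2 = G.quad x w

/-- A smooth isometric embedding of `(T², g)`: an isometric immersion which is injective on the torus
(the torus is compact). -/
def IsIsometricEmbedding (G : TorusMetric) (f : ℝ × ℝ → E3) : Prop :=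
  IsIsometricImmersion G f ∧ ∀ x y : ℝ × ℝ, f x = f y →
    ∃ m n : ℤ, y = (x.1 + 2 * Real.pi * m, x.2 + 2 * Real.pi * n)

/-- The pointwise norm `|g - g₀|_{g₀}(x)` of the symmetric tensor `h = g - g₀` with respect to `g₀`,
`(tr (g₀⁻¹ h g₀⁻¹ h))^(1/2)`. -/
noncomputable def tensorDist (G G₀ : TorusMetric) (x : ℝ × ℝ) : ℝ :=
  Real.sqrt (((G₀.g x)⁻¹ * (G.g x - G₀.g x) * ((G₀.g x)⁻¹ * (G.g x - G₀.g x))).trace)

/-- The `C⁰` distance of `g` to `g₀`: the supremum of the pointwise norms. -/
noncomputable def c0Dist (G G₀ : TorusMetric) : ℝ≥0∞ :=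
  ⨆ x, ENNReal.ofReal (tensorDist G G₀ x)

end Pool.Agent.X178.Tor
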