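import Pool.Agent.X178.Tor.Vec

/-! Partial derivatives of functions of two variables. -/

namespace Pool.Agent.X178.Tor

open Set
open scoped ContDiff

variable {F : Type*} [NormedAddCommGroup F] [NormedSpace ℝ F]

/-- first partial derivative -/
noncomputable def D1 (a : ℝ × ℝ → F) (x : ℝ × ℝ) : F := fderiv ℝ a x (1, 0)

/-- second partial derivative -/
noncomputable def D2 (a : ℝ × ℝ → F) (x : ℝ × ℝ) : F := fderiv ℝ a x (0, 1)

theorem fderiv_eq (a : ℝ × ℝ → F) (x w : ℝ × ℝ) : fderiv ℝ a x w = w.1 • D1 a x + w.2 • D2 a x := by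
  have e : w = w.1 • ((1 : ℝ), (0 : ℝ)) + w.2 • ((0 : ℝ), (1 : ℝ)) := by
    ext <;> simp
  conv_lhs => rw [e, map_add, map_smul, map_smul]
  rfl

theorem smooth_D1 {a : ℝ × ℝ → F} (h : ContDiff ℝ ∞ a) : ContDiff ℝ ∞ (D1 a) :=
  (h.fderiv_right (m := ∞) (by simp)).clm_apply contDiff_const

theorem smooth_D2 {a : ℝ × ℝ → F} (h : ContDiff ℝ ∞ a) : ContDiff ℝ ∞ (D2 a) :=
  (h.fderiv_right (m := ∞) (by simp)).clm_apply contDiff_const

theorem diff_of {a : ℝ × ℝ → F} (h : ContDiff ℝ ∞ a) : Differentiable ℝ a :=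
  h.differentiable (by simp)

theorem D_comm {a : ℝ × ℝ → F} (h : ContDiff ℝ ∞ a) : D1 (D2 a) = D2 (D1 a) := by
  funext x
  have hd : DifferentiableAt ℝ (fderiv ℝ a) x :=
    ((h.fderiv_right (m := ∞) (by simp)).differentiable (by simp)) x
  have hs : IsSymmSndFDerivAt ℝ a x :=
    (h.contDiffAt (x := x)).isSymmSndFDerivAt (by
      simp only [minSmoothness_of_isRCLikeNormedField]
      exact WithTop.coe_le_coe.mpr (le_top : (2 : ℕ∞) ≤ ⊤))
  have e1 : D1 (D2 a) x = fderiv ℝ (fderiv ℝ a) x (1, 0) (0, 1) := by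
    unfold D1 D2
    rw [fderiv_clm_apply hd (differentiableAt_const _)]
    simp
  have e2 : D2 (D1 a) x = fderiv ℝ (fderiv ℝ a) x (0, 1) (1, 0) := by
    unfold D1 D2
    rw [fderiv_clm_apply hd (differentiableAt_const _)]
    simp
  rw [e1, e2]
  exact hs _ _

theorem D1_inn {a b : ℝ × ℝ → E3} (ha : ContDiff ℝ ∞ a) (hb : ContDiff ℝ ∞ b) (x : ℝ × ℝ) :
    D1 (fun y => inner ℝ (a y) (b y)) x = inner ℝ (D1 a x) (b x) + inner ℝ (a x) (D1 b x) := by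
  unfold D1
  rw [fderiv_inner_apply ℝ (diff_of ha x) (diff_of hb x), add_comm]

theorem D2_inn {a b : ℝ × ℝ → E3} (ha : ContDiff ℝ ∞ a) (hb : ContDiff ℝ ∞ b) (x : ℝ × ℝ) :
    D2 (fun y => inner ℝ (a y) (b y)) x = inner ℝ (D2 a x) (b x) + inner ℝ (a x) (D2 b x) := by
  unfold D2
  rw [fderiv_inner_apply ℝ (diff_of ha x) (diff_of hb x), add_comm]

theorem D1_fst {c : ℝ → ℝ} {x : ℝ × ℝ} {c' : ℝ} (h : HasDerivAt c c' x.1) :
    D1 (fun y : ℝ × ℝ => c y.1) x = c' := by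
  have h1 : HasFDerivAt (fun y : ℝ × ℝ => c y.1) _ x :=
    h.hasFDerivAt.comp x (hasFDerivAt_fst (𝕜 := ℝ) (E := ℝ) (F := ℝ) (p := x))
  unfold D1
  rw [h1.fderiv]
  simp

theorem D2_fst {c : ℝ → ℝ} {x : ℝ × ℝ} {c' : ℝ} (h : HasDerivAt c c' x.1) :
    D2 (fun y : ℝ × ℝ => c y.1) x = 0 := by
  have h1 : HasFDerivAt (fun y : ℝ × ℝ => c y.1) _ x :=
    h.hasFDerivAt.comp x (hasFDerivAt_fst (𝕜 := ℝ) (E := ℝ) (F := ℝ) (p := x))
  unfold D2
  rw [h1.fderiv]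
  simp

end Pool.Agent.X178.Tor
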