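import Pool.Agent.X178.Tor.Final
import Pool.Agent.X178.Tor.Defs

/-! Smooth metrics on the torus, and the standard torus of revolution. -/

namespace Pool.Agent.X178.Tor

open Set Filter MeasureTheory
open scoped ContDiff Topology ENNReal

/-- the matrix of the metric `du² + (2 + c cos u)² dv²` -/
noncomputable def revMat (c : ℝ) (x : ℝ × ℝ) : Matrix (Fin 2) (Fin 2) ℝ :=
  Matrix.diagonal ![1, (2 + c * Real.cos x.1) ^ 2]

theorem rev_pos {c : ℝ} (h0 : 0 ≤ c) (h1 : c ≤ 1) (u : ℝ) : 1 ≤ 2 + c * Real.cos u := by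
  have := Real.neg_one_le_cos u
  nlinarith

/-- the metric `du² + (2 + c cos u)² dv²` -/
noncomputable def revMetric (c : ℝ) (h0 : 0 ≤ c) (h1 : c ≤ 1) : TorusMetric where
  g := revMat c
  smooth := by
    intro i j
    have hs : ContDiff ℝ ∞ (fun x : ℝ × ℝ => (2 + c * Real.cos x.1) ^ 2) :=
      (contDiff_const.add (contDiff_const.mul (Real.contDiff_cos.comp contDiff_fst))).pow 2
    fin_cases i <;> fin_cases j <;> simp [revMat, Matrix.diagonal] <;>
      first | exact contDiff_const | exact hs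
  periodic := by
    intro u v
    simp [revMat, Real.cos_add_two_pi]
  posDef := by
    intro x
    rw [revMat, Matrix.posDef_diagonal_iff]
    intro i
    fin_cases i
    · simp
    · have := rev_pos h0 h1 x.1
      simp; positivity

theorem rev_quad (c : ℝ) (h0 : 0 ≤ c) (h1 : c ≤ 1) (x w : ℝ × ℝ) :
    (revMetric c h0 h1).quad x w = w.1 ^ 2 + (2 + c * Real.cos x.1) ^ 2 * w.2 ^ 2 := by
  simp only [TorusMetric.quad, revMetric, revMat, Matrix.mulVec_diagonal, dotProduct,
    Fin.sum_univ_two, Matrix.cons_val_zero, Matrix.cons_val_one]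
  ring

/-- the standard torus of revolution -/
noncomputable def torusEmb (x : ℝ × ℝ) : E3 :=
  !₂[(2 + Real.cos x.1) * Real.cos x.2, (2 + Real.cos x.1) * Real.sin x.2, Real.sin x.1]

theorem torusEmb_smooth : ContDiff ℝ ∞ torusEmb := by
  rw [contDiff_euclidean]
  have h1 : ContDiff ℝ ∞ (fun x : ℝ × ℝ => Real.cos x.1) := Real.contDiff_cos.comp contDiff_fst
  have h2 : ContDiff ℝ ∞ (fun x : ℝ × ℝ => Real.cos x.2) := Real.contDiff_cos.comp contDiff_snd
  have h3 : ContDiff ℝ ∞ (fun x : ℝ × ℝ => Real.sin x.1) := Real.contDiff_sin.comp contDiff_fst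
  have h4 : ContDiff ℝ ∞ (fun x : ℝ × ℝ => Real.sin x.2) := Real.contDiff_sin.comp contDiff_snd
  intro i
  fin_cases i
  · exact (contDiff_const.add h1).mul h2
  · exact (contDiff_const.add h1).mul h4
  · exact h3

theorem torusEmb_fderiv (x w : ℝ × ℝ) : fderiv ℝ torusEmb x w =
    !₂[-(Real.sin x.1 * w.1) * Real.cos x.2 - (2 + Real.cos x.1) * (Real.sin x.2 * w.2),
      -(Real.sin x.1 * w.1) * Real.sin x.2 + (2 + Real.cos x.1) * (Real.cos x.2 * w.2),
      Real.cos x.1 * w.1] := by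
  have hf1 : HasFDerivAt (fun x : ℝ × ℝ => x.1) (ContinuousLinearMap.fst ℝ ℝ ℝ) x := hasFDerivAt_fst
  have hf2 : HasFDerivAt (fun x : ℝ × ℝ => x.2) (ContinuousLinearMap.snd ℝ ℝ ℝ) x := hasFDerivAt_snd
  have c1 := (Real.hasDerivAt_cos x.1).comp_hasFDerivAt x hf1
  have s1 := (Real.hasDerivAt_sin x.1).comp_hasFDerivAt x hf1
  have c2 := (Real.hasDerivAt_cos x.2).comp_hasFDerivAt x hf2
  have s2 := (Real.hasDerivAt_sin x.2).comp_hasFDerivAt x hf2
  have a1 := (c1.const_add 2).mul c2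
  have a2 := (c1.const_add 2).mul s2
  have hd : DifferentiableAt ℝ torusEmb x := diff_of torusEmb_smooth x
  have hcomp : ∀ i : Fin 3, (fderiv ℝ torusEmb x w) i = fderiv ℝ (fun y => torusEmb y i) x w := by
    intro i
    have h1 : HasFDerivAt (fun y => torusEmb y i)
        ((EuclideanSpace.proj (𝕜 := ℝ) i).comp (fderiv ℝ torusEmb x)) x :=
      (EuclideanSpace.proj (𝕜 := ℝ) i).hasFDerivAt.comp x hd.hasFDerivAt
    rw [h1.fderiv]
    rfl
  have e0 : fderiv ℝ (fun y => torusEmb y 0) x = _ := a1.fderiv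
  have e1 : fderiv ℝ (fun y => torusEmb y 1) x = _ := a2.fderiv
  have e2 : fderiv ℝ (fun y => torusEmb y 2) x = _ := s1.fderiv
  ext i
  fin_cases i
  · have := hcomp 0
    rw [e0] at this
    refine this.trans ?_
    simp; ring
  · have := hcomp 1
    rw [e1] at this
    refine this.trans ?_
    simp; ring
  · have := hcomp 2
    rw [e2] at this
    refine this.trans ?_
    simp

theorem torusEmb_isometric : IsIsometricEmbedding (revMetric 1 zero_le_one le_rfl) torusEmb := by
  refine ⟨⟨torusEmb_smooth, ?_, ?_⟩, ?_⟩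
  · intro u v
    simp [torusEmb, Real.cos_add_two_pi, Real.sin_add_two_pi]
  · intro x w
    rw [rev_quad, torusEmb_fderiv, ← real_inner_self_eq_norm_sq, inn3]
    simp only [Matrix.cons_val_zero, Matrix.cons_val_one, Matrix.cons_val_two,
      Matrix.head_cons, Matrix.tail_cons]
    have e1 := Real.sin_sq_add_cos_sq x.1
    have e2 := Real.sin_sq_add_cos_sq x.2
    linear_combination (w.1 ^ 2) * e1 +
      (Real.sin x.1 ^ 2 * w.1 ^ 2 + (2 + Real.cos x.1) ^ 2 * w.2 ^ 2) * e2
  · intro x y hxy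
    have p1 : 0 < 2 + Real.cos x.1 := by linarith [Real.neg_one_le_cos x.1]
    have p2 : 0 < 2 + Real.cos y.1 := by linarith [Real.neg_one_le_cos y.1]
    have h0 : (2 + Real.cos x.1) * Real.cos x.2 = (2 + Real.cos y.1) * Real.cos y.2 :=
      congrArg (fun z : E3 => z 0) hxy
    have h1 : (2 + Real.cos x.1) * Real.sin x.2 = (2 + Real.cos y.1) * Real.sin y.2 :=
      congrArg (fun z : E3 => z 1) hxy
    have h2 : Real.sin x.1 = Real.sin y.1 := congrArg (fun z : E3 => z 2) hxy
    have hsq : (2 + Real.cos x.1) ^ 2 = (2 + Real.cos y.1) ^ 2 := by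
      have e1 := Real.sin_sq_add_cos_sq x.2
      have e2 := Real.sin_sq_add_cos_sq y.2
      have : (2 + Real.cos x.1) ^ 2 * (Real.sin x.2 ^ 2 + Real.cos x.2 ^ 2) =
          (2 + Real.cos y.1) ^ 2 * (Real.sin y.2 ^ 2 + Real.cos y.2 ^ 2) := by
        have q0 : ((2 + Real.cos x.1) * Real.cos x.2) ^ 2 = ((2 + Real.cos y.1) * Real.cos y.2) ^ 2 := by
          rw [h0]
        have q1 : ((2 + Real.cos x.1) * Real.sin x.2) ^ 2 = ((2 + Real.cos y.1) * Real.sin y.2) ^ 2 := by
          rw [h1]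
        linear_combination q0 + q1
      rwa [e1, e2, mul_one, mul_one] at this
    have h3 : Real.cos x.1 = Real.cos y.1 := by
      have := (pow_left_inj₀ p1.le p2.le two_ne_zero).mp hsq
      linarith
    have h4 : Real.cos x.2 = Real.cos y.2 := by
      rw [← h3] at h0
      exact mul_left_cancel₀ p1.ne' h0
    have h5 : Real.sin x.2 = Real.sin y.2 := by
      rw [← h3] at h1
      exact mul_left_cancel₀ p1.ne' h1
    have key : ∀ a b : ℝ, Real.cos a = Real.cos b → Real.sin a = Real.sin b →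
        ∃ n : ℤ, b = a + 2 * Real.pi * n := by
      intro a b hc hs
      have : (a : Real.Angle) = (b : Real.Angle) := Real.Angle.cos_sin_inj hc hs
      rw [Real.Angle.angle_eq_iff_two_pi_dvd_sub] at this
      obtain ⟨k, hk⟩ := this
      refine ⟨-k, ?_⟩
      push_cast
      linarith
    obtain ⟨m, hm⟩ := key _ _ h3 h2
    obtain ⟨n, hn⟩ := key _ _ h4 h5
    exact ⟨m, n, Prod.ext hm hn⟩

end Pool.Agent.X178.Tor
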