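import Pool.Agent.X178.Tor.Cone

/-! The metrics `du² + (2 + c cos u)² dv²` with `c < 1` have no isometric immersion. -/

namespace Pool.Agent.X178.Tor

open Set Filter MeasureTheory
open scoped ContDiff Topology ENNReal

/-- the profile -/
noncomputable def hc (c u : ℝ) : ℝ := 2 + c * Real.cos u

theorem deriv_hc (c : ℝ) : deriv (hc c) = fun u => -(c * Real.sin u) := by
  funext u
  have : HasDerivAt (hc c) (c * (-Real.sin u)) u :=
    ((Real.hasDerivAt_cos u).const_mul c).const_add 2
  rw [this.deriv]; ring

theorem deriv2_hc (c : ℝ) : deriv (deriv (hc c)) = fun u => -(c * Real.cos u) := by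
  rw [deriv_hc]
  funext u
  exact (((Real.hasDerivAt_sin u).const_mul c).neg).deriv

theorem smooth_hc (c : ℝ) : ContDiff ℝ ∞ (hc c) := by
  unfold hc
  exact contDiff_const.add (contDiff_const.mul Real.contDiff_cos)

theorem integral_box (c : ℝ) (hc0 : 0 < c) :
    ∫⁻ y in {y : E3 | y 0 ∈ Ioo (0 : ℝ) 1 ∧ y 1 ∈ Icc (-Real.pi) Real.pi ∧
        y 2 ∈ Icc (-Real.pi) Real.pi ∧ deriv (deriv (hc c)) (y 1) ≤ 0},
        ENNReal.ofReal (y 0 ^ 2 * |deriv (deriv (hc c)) (y 1)|) ≤
      ENNReal.ofReal (4 * Real.pi * c / 3) := by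
  have hpi := Real.pi_pos
  set s : Fin 3 → Set ℝ := ![Ioo 0 1, Icc (-(Real.pi / 2)) (Real.pi / 2), Icc (-Real.pi) Real.pi]
    with hs
  set T : Set E3 := (fun y : E3 => y.ofLp) ⁻¹' (Set.pi univ s) with hT
  set φ : Fin 3 → ℝ → ℝ := ![fun r => r ^ 2, fun u => c * Real.cos u, fun _ => 1] with hφ
  have ms : ∀ i, MeasurableSet (s i) := by
    intro i; fin_cases i
    · exact measurableSet_Ioo
    · exact measurableSet_Icc
    · exact measurableSet_Icc
  have mT' : MeasurableSet (Set.pi univ s) := MeasurableSet.univ_pi ms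
  have hsub : {y : E3 | y 0 ∈ Ioo (0 : ℝ) 1 ∧ y 1 ∈ Icc (-Real.pi) Real.pi ∧
        y 2 ∈ Icc (-Real.pi) Real.pi ∧ deriv (deriv (hc c)) (y 1) ≤ 0} ⊆ T := by
    rintro y ⟨h0, h1, h2, h3⟩
    rw [deriv2_hc] at h3
    have hcos : 0 ≤ Real.cos (y 1) := by
      by_contra hcon
      push Not at hcon
      have := mul_neg_of_pos_of_neg hc0 hcon
      linarith
    intro i _
    fin_cases i
    · exact h0
    · refine ⟨?_, ?_⟩
      · by_contra hcon0
        have hcon : y 1 < -(Real.pi / 2) := not_le.mp hcon0
        have : Real.cos (-(y 1)) < 0 :=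
          Real.cos_neg_of_pi_div_two_lt_of_lt (by linarith) (by linarith [h1.1])
        rw [Real.cos_neg] at this
        linarith
      · by_contra hcon0
        have hcon : Real.pi / 2 < y 1 := not_le.mp hcon0
        have : Real.cos (y 1) < 0 :=
          Real.cos_neg_of_pi_div_two_lt_of_lt (by linarith) (by linarith [h1.2])
        linarith
    · exact h2
  have hmT : MeasurableSet T := by
    exact (PiLp.volume_preserving_ofLp (Fin 3)).measurable mT'
  have hnn : ∀ x ∈ Set.pi univ s, 0 ≤ ∏ i, φ i (x i) := by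
    intro x hx
    rw [Fin.prod_univ_three]
    have h1 := hx 1 (mem_univ _)
    have hcos : 0 ≤ Real.cos (x 1) := Real.cos_nonneg_of_mem_Icc h1
    simp only [hφ, Matrix.cons_val_zero, Matrix.cons_val_one, Matrix.cons_val_two,
      Matrix.head_cons, Matrix.tail_cons]
    positivity
  have hint : Integrable (fun x : Fin 3 → ℝ => ∏ i, φ i (x i))
      (Measure.pi fun i => (volume : Measure ℝ).restrict (s i)) := by
    apply Integrable.fintype_prod
    intro i
    fin_cases i
    · exact (((continuous_pow 2).integrableOn_Icc (a := (0 : ℝ)) (b := 1)).mono_set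
        Ioo_subset_Icc_self)
    · exact ((continuous_const.mul Real.continuous_cos).integrableOn_Icc)
    · exact (continuous_const.integrableOn_Icc)
  have hval : ∫ x : Fin 3 → ℝ, ∏ i, φ i (x i) ∂(Measure.pi fun i => (volume : Measure ℝ).restrict (s i))
      = 4 * Real.pi * c / 3 := by
    rw [integral_fintype_prod_eq_prod, Fin.prod_univ_three]
    have e0 : ∫ x, φ 0 x ∂(volume : Measure ℝ).restrict (s 0) = 1 / 3 := by
      change ∫ x in Ioo (0 : ℝ) 1, x ^ 2 = 1 / 3
      rw [← integral_Ioc_eq_integral_Ioo, ← intervalIntegral.integral_of_le (by norm_num)]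
      norm_num
    have e1 : ∫ x, φ 1 x ∂(volume : Measure ℝ).restrict (s 1) = 2 * c := by
      change ∫ x in Icc (-(Real.pi / 2)) (Real.pi / 2), c * Real.cos x = 2 * c
      rw [integral_Icc_eq_integral_Ioc, ← intervalIntegral.integral_of_le (by linarith),
        intervalIntegral.integral_const_mul, integral_cos]
      rw [Real.sin_neg, Real.sin_pi_div_two]
      ring
    have e2 : ∫ x, φ 2 x ∂(volume : Measure ℝ).restrict (s 2) = 2 * Real.pi := by
      change ∫ x in Icc (-Real.pi) Real.pi, (1 : ℝ) = 2 * Real.pi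
      rw [integral_Icc_eq_integral_Ioc, ← intervalIntegral.integral_of_le (by linarith)]
      simp; ring
    rw [e0, e1, e2]
    ring
  calc _ ≤ ∫⁻ y in T, ENNReal.ofReal (y 0 ^ 2 * |deriv (deriv (hc c)) (y 1)|) :=
        lintegral_mono_set hsub
    _ = ∫⁻ y in T, (fun x : Fin 3 → ℝ => ENNReal.ofReal (∏ i, φ i (x i))) (y.ofLp) := by
        apply setLIntegral_congr_fun hmT
        intro y hy
        have h1 := hy 1 (mem_univ _)
        have hcos : 0 ≤ Real.cos (y 1) := Real.cos_nonneg_of_mem_Icc h1
        change ENNReal.ofReal _ = ENNReal.ofReal _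
        congr 1
        rw [deriv2_hc, abs_neg, abs_of_nonneg (by positivity), Fin.prod_univ_three]
        simp [hφ]
    _ = ∫⁻ x in Set.pi univ s, ENNReal.ofReal (∏ i, φ i (x i)) := by
        have hmeas : Measurable fun x : Fin 3 → ℝ => ENNReal.ofReal (∏ i, φ i (x i)) := by
          apply Measurable.ennreal_ofReal
          apply Finset.measurable_prod
          intro i _
          have : Measurable (φ i) := by
            fin_cases i
            · exact (measurable_id.pow_const 2)
            · exact (Real.measurable_cos.const_mul c)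
            · exact measurable_const
          exact this.comp (measurable_pi_apply i)
        exact (PiLp.volume_preserving_ofLp (Fin 3)).setLIntegral_comp_preimage mT' hmeas
    _ = ENNReal.ofReal (∫ x in Set.pi univ s, ∏ i, φ i (x i)) := by
        rw [ofReal_integral_eq_lintegral_ofReal]
        · rw [volume_pi, Measure.restrict_pi_pi]
          exact hint
        · filter_upwards [ae_restrict_mem mT'] with x hx
          exact hnn x hx
    _ = ENNReal.ofReal (4 * Real.pi * c / 3) := by
        rw [volume_pi, Measure.restrict_pi_pi, hval]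
    _ ≤ _ := le_rfl

/-- **No isometric immersion.** -/
theorem no_immersion {c : ℝ} (hc0 : 0 < c) (hc1 : c < 1) {f : ℝ × ℝ → E3} (hf : Per f)
    (hsm : ContDiff ℝ ∞ f)
    (hm : ∀ x w : ℝ × ℝ, ‖fderiv ℝ f x w‖ ^ 2 = w.1 ^ 2 + (2 + c * Real.cos x.1) ^ 2 * w.2 ^ 2) :
    False := by
  have H : RevImm (hc c) f :=
    { smooth := hsm
      smooth_h := smooth_hc c
      pos := fun u => by
        have := Real.neg_one_le_cos u
        unfold hc
        nlinarith
      metric := hm }
  have h1 := (H.total_curvature hf).trans (integral_box c hc0)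
  rw [EuclideanSpace.volume_ball_fin_three, ENNReal.ofReal_one, one_pow, one_mul,
    ENNReal.ofReal_le_ofReal_iff (by have := Real.pi_pos; positivity)] at h1
  nlinarith [Real.pi_pos]

end Pool.Agent.X178.Tor
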