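import Pool.Agent.X178.Tor.Surf

/-! Second derivative test, and the Gauss map at points of maximal height. -/

namespace Pool.Agent.X178.Tor

set_option linter.unusedSectionVars false

open Set Filter
open scoped ContDiff Topology

/-- one variable second derivative test (necessary condition) -/
theorem second_deriv_nonpos {g g' : ℝ → ℝ} {g'' : ℝ} (h1 : ∀ t, HasDerivAt g (g' t) t)
    (h2 : HasDerivAt g' g'' 0) (hmax : IsLocalMax g 0) : g' 0 = 0 ∧ g'' ≤ 0 := by
  have e0 : g' 0 = 0 := hmax.hasDerivAt_eq_zero (h1 0)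
  refine ⟨e0, ?_⟩
  by_contra hcon
  push Not at hcon
  have hg : deriv g = g' := funext fun t => (h1 t).deriv
  have hmin : IsLocalMin g 0 := by
    apply isLocalMin_of_deriv_deriv_pos
    · rw [hg, h2.deriv]; exact hcon
    · rw [hg]; exact e0
    · exact (h1 0).continuousAt
  have hc : ∀ᶠ t in 𝓝 (0 : ℝ), g t = g 0 := by
    filter_upwards [hmax, hmin] with t ht1 ht2
    exact le_antisymm ht1 ht2
  have hc2 : ∀ᶠ t in 𝓝 (0 : ℝ), g' t = 0 := by
    filter_upwards [hc.eventually_nhds] with t ht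
    have : HasDerivAt g 0 t := (hasDerivAt_const t (g 0)).congr_of_eventuallyEq ht
    exact (h1 t).unique this
  have h3 : HasDerivAt g' 0 0 := (hasDerivAt_const (0 : ℝ) (0 : ℝ)).congr_of_eventuallyEq hc2
  have := h2.unique h3
  linarith

/-- two variables -/
theorem second_test {G : ℝ × ℝ → ℝ} (hG : ContDiff ℝ ∞ G) {x : ℝ × ℝ} (hmax : ∀ y, G y ≤ G x) :
    D1 G x = 0 ∧ D2 G x = 0 ∧ ∀ a b : ℝ,
      a ^ 2 * D1 (D1 G) x + 2 * (a * b * D2 (D1 G) x) + b ^ 2 * D2 (D2 G) x ≤ 0 := by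
  have key : ∀ w : ℝ × ℝ, w.1 * D1 G x + w.2 * D2 G x = 0 ∧
      w.1 ^ 2 * D1 (D1 G) x + 2 * (w.1 * w.2 * D2 (D1 G) x) + w.2 ^ 2 * D2 (D2 G) x ≤ 0 := by
    intro w
    have hline : ∀ t : ℝ, HasDerivAt (fun t : ℝ => x + t • w) w t := by
      intro t
      simpa using ((hasDerivAt_id t).smul_const w).const_add x
    have hcomp : ∀ (A : ℝ × ℝ → ℝ) (_ : ContDiff ℝ ∞ A) (t : ℝ),
        HasDerivAt (fun t : ℝ => A (x + t • w)) (w.1 * D1 A (x + t • w) + w.2 * D2 A (x + t • w)) t := by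
      intro A hA t
      have h1 := ((diff_of hA (x + t • w)).hasFDerivAt).comp_hasDerivAt t (hline t)
      rw [fderiv_eq] at h1
      exact h1
    have h2 : HasDerivAt (fun t : ℝ => w.1 * D1 G (x + t • w) + w.2 * D2 G (x + t • w))
        (w.1 * (w.1 * D1 (D1 G) (x + (0 : ℝ) • w) + w.2 * D2 (D1 G) (x + (0 : ℝ) • w)) +
          w.2 * (w.1 * D1 (D2 G) (x + (0 : ℝ) • w) + w.2 * D2 (D2 G) (x + (0 : ℝ) • w))) 0 :=
      ((hcomp _ (smooth_D1 hG) 0).const_mul w.1).add ((hcomp _ (smooth_D2 hG) 0).const_mul w.2)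
    have hm : IsLocalMax (fun t : ℝ => G (x + t • w)) 0 := by
      apply Filter.Eventually.of_forall
      intro t
      simpa using hmax _
    obtain ⟨k1, k2⟩ := second_deriv_nonpos (hcomp G hG) h2 hm
    simp only [zero_smul, add_zero] at k1 k2
    rw [D_comm hG] at k2
    exact ⟨k1, by linarith⟩
  refine ⟨?_, ?_, fun a b => (key (a, b)).2⟩
  · simpa using (key (1, 0)).1
  · simpa using (key (0, 1)).1

theorem D1_inn_const {f : ℝ × ℝ → E3} (hf : ContDiff ℝ ∞ f) (n : E3) :
    D1 (fun y => inner ℝ (f y) n) = fun y => inner ℝ (D1 f y) n := by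
  funext x
  have := D1_inn hf (contDiff_const (c := n)) x
  rw [this]
  simp [D1]

theorem D2_inn_const {f : ℝ × ℝ → E3} (hf : ContDiff ℝ ∞ f) (n : E3) :
    D2 (fun y => inner ℝ (f y) n) = fun y => inner ℝ (D2 f y) n := by
  funext x
  have := D2_inn hf (contDiff_const (c := n)) x
  rw [this]
  simp [D2]

theorem semidef {L M P : ℝ} (h : ∀ a b : ℝ, a ^ 2 * L + 2 * (a * b * M) + b ^ 2 * P ≤ 0) :
    L ≤ 0 ∧ P ≤ 0 ∧ 0 ≤ L * P - M ^ 2 := by
  have h1 := h 1 0
  have h2 := h 0 1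
  have hL : L ≤ 0 := by linarith
  have hP : P ≤ 0 := by linarith
  refine ⟨hL, hP, ?_⟩
  rcases hL.lt_or_eq with h3 | h3
  · have h4 := h M (-L)
    have h5 : L * (L * P - M ^ 2) ≤ 0 := by nlinarith
    by_contra h6
    push Not at h6
    nlinarith
  · have hM : M = 0 := by
      by_contra hM
      have h4 := h ((1 - P) / (2 * M)) 1
      rw [h3] at h4
      have : 2 * ((1 - P) / (2 * M) * 1 * M) = 1 - P := by field_simp
      rw [this] at h4
      linarith
    rw [h3, hM]
    simp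

namespace RevImm

variable {h : ℝ → ℝ} {f : ℝ × ℝ → E3} (H : RevImm h f)

include H

theorem eq_nor {n : E3} (hn : inner ℝ n n = (1 : ℝ)) {x} (h1 : inner ℝ (D1 f x) n = 0)
    (h2 : inner ℝ (D2 f x) n = 0) : nor h f x = n ∨ nor h f x = -n := by
  have hp := (H.pos x.1).ne'
  have e : ∀ b : E3, inner ℝ n (nor h f x) * inner ℝ b (nor h f x) = inner ℝ n b := by
    intro b
    have g := gram n b (D1 f x) (D2 f x)
    rw [H.inn_cr, H.inn_cr, H.inn11, H.inn22, H.inn12, real_inner_comm (D1 f x) n, h1,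
      real_inner_comm (D2 f x) n, h2] at g
    have : h x.1 ^ 2 * (inner ℝ n (nor h f x) * inner ℝ b (nor h f x) - inner ℝ n b) = 0 := by
      linear_combination g
    rcases mul_eq_zero.mp this with h3 | h3
    · exact absurd (pow_eq_zero_iff two_ne_zero |>.mp h3) hp
    · linarith
  have e1 := e n
  rw [hn] at e1
  have e2 : inner ℝ n (nor h f x) = 1 ∨ inner ℝ n (nor h f x) = -1 := by
    have : (inner ℝ n (nor h f x) - 1) * (inner ℝ n (nor h f x) + 1) = (0 : ℝ) := by
      linear_combination e1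
    rcases mul_eq_zero.mp this with h3 | h3
    · left; linarith
    · right; linarith
  rcases e2 with e2 | e2
  · left
    apply ext_inner_left ℝ
    intro b
    have := e b
    rw [e2, one_mul] at this
    rw [this, real_inner_comm]
  · right
    apply ext_inner_left ℝ
    intro b
    have := e b
    rw [e2] at this
    rw [inner_neg_right, real_inner_comm n b]
    linarith

/-- at a point of maximal height -/
theorem at_max {n : E3} (hn : inner ℝ n n = (1 : ℝ)) {x : ℝ × ℝ}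
    (hmax : ∀ y, inner ℝ (f y) n ≤ inner ℝ (f x) n) :
    deriv (deriv h) x.1 ≤ 0 ∧
    ((nor h f x = n ∧ inner ℝ (nor h f x) (D1 (D1 f) x) ≤ 0 ∧
        inner ℝ (nor h f x) (D2 (D2 f) x) ≤ 0) ∨
      (nor h f x = -n ∧ 0 ≤ inner ℝ (nor h f x) (D1 (D1 f) x) ∧
        0 ≤ inner ℝ (nor h f x) (D2 (D2 f) x))) := by
  have hG : ContDiff ℝ ∞ (fun y => inner ℝ (f y) n) := H.smooth.inner ℝ contDiff_const
  obtain ⟨k1, k2, k3⟩ := second_test hG hmax
  simp only [D1_inn_const H.smooth, D2_inn_const H.smooth, D1_inn_const H.sD1,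
    D2_inn_const H.sD1, D2_inn_const H.sD2] at k1 k2 k3
  obtain ⟨l1, l2, l3⟩ := semidef k3
  have hg := H.gauss' x
  have hp := H.pos x.1
  rcases H.eq_nor hn k1 k2 with e | e
  · have hd : deriv (deriv h) x.1 ≤ 0 := by
      rw [e, real_inner_comm (D1 (D1 f) x) n, real_inner_comm (D2 (D2 f) x) n,
        real_inner_comm (D2 (D1 f) x) n] at hg
      by_contra hc
      push Not at hc
      have := mul_pos hp hc
      linarith
    refine ⟨hd, Or.inl ⟨e, ?_, ?_⟩⟩
    · rw [e, real_inner_comm (D1 (D1 f) x) n]; exact l1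
    · rw [e, real_inner_comm (D2 (D2 f) x) n]; exact l2
  · have hd : deriv (deriv h) x.1 ≤ 0 := by
      rw [e, inner_neg_left, inner_neg_left, inner_neg_left, real_inner_comm (D1 (D1 f) x) n,
        real_inner_comm (D2 (D2 f) x) n, real_inner_comm (D2 (D1 f) x) n] at hg
      by_contra hc
      push Not at hc
      have := mul_pos hp hc
      nlinarith
    refine ⟨hd, Or.inr ⟨e, ?_, ?_⟩⟩
    · rw [e, inner_neg_left, real_inner_comm (D1 (D1 f) x) n]; linarith
    · rw [e, inner_neg_left, real_inner_comm (D2 (D2 f) x) n]; linarith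

end RevImm

end Pool.Agent.X178.Tor
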