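import Pool.Agent.X178.Tor.Diff

/-! Surfaces with the first fundamental form `du² + h(u)² dv²`: the Gauss equation and the derivative of
the unit normal. -/

namespace Pool.Agent.X178.Tor

set_option linter.unusedSectionVars false

open Set
open scoped ContDiff

/-- a smooth map with first fundamental form `du² + h(u)² dv²` -/
structure RevImm (h : ℝ → ℝ) (f : ℝ × ℝ → E3) : Prop where
  smooth : ContDiff ℝ ∞ f
  smooth_h : ContDiff ℝ ∞ h
  pos : ∀ u, 0 < h u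
  metric : ∀ x w : ℝ × ℝ, ‖fderiv ℝ f x w‖ ^ 2 = w.1 ^ 2 + h x.1 ^ 2 * w.2 ^ 2

namespace RevImm

variable {h : ℝ → ℝ} {f : ℝ × ℝ → E3} (H : RevImm h f)

include H

theorem inn11 (x) : inner ℝ (D1 f x) (D1 f x) = 1 := by
  have := H.metric x (1, 0)
  rw [real_inner_self_eq_norm_sq]
  simpa [D1] using this

theorem inn22 (x) : inner ℝ (D2 f x) (D2 f x) = h x.1 ^ 2 := by
  have := H.metric x (0, 1)
  rw [real_inner_self_eq_norm_sq]
  simpa [D2] using this

theorem inn12 (x) : inner ℝ (D1 f x) (D2 f x) = 0 := by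
  have h1 := H.metric x (1, 1)
  rw [fderiv_eq] at h1
  simp only [one_smul, one_pow, mul_one] at h1
  rw [← real_inner_self_eq_norm_sq, inner_add_left, inner_add_right, inner_add_right,
    real_inner_comm (D1 f x) (D2 f x), H.inn11, H.inn22] at h1
  linarith

theorem sD1 : ContDiff ℝ ∞ (D1 f) := smooth_D1 H.smooth
theorem sD2 : ContDiff ℝ ∞ (D2 f) := smooth_D2 H.smooth
theorem sD11 : ContDiff ℝ ∞ (D1 (D1 f)) := smooth_D1 H.sD1
theorem sD12 : ContDiff ℝ ∞ (D2 (D1 f)) := smooth_D2 H.sD1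
theorem sD22 : ContDiff ℝ ∞ (D2 (D2 f)) := smooth_D2 H.sD2

theorem hd (u : ℝ) : HasDerivAt h (deriv h u) u :=
  (H.smooth_h.differentiable (by simp) u).hasDerivAt

theorem hdd (u : ℝ) : HasDerivAt (deriv h) (deriv (deriv h) u) u := by
  have : ContDiff ℝ ∞ (deriv h) := H.smooth_h.iterate_deriv 1
  exact (this.differentiable (by simp) u).hasDerivAt

theorem i11_1 (x) : inner ℝ (D1 (D1 f) x) (D1 f x) = 0 := by
  have h1 := D1_inn H.sD1 H.sD1 x
  have h2 : (fun y => inner ℝ (D1 f y) (D1 f y)) = fun _ => (1 : ℝ) := funext H.inn11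
  rw [h2] at h1
  have h3 : D1 (fun _ : ℝ × ℝ => (1 : ℝ)) x = 0 := by simp [D1]
  rw [h3, real_inner_comm (D1 (D1 f) x)] at h1
  linarith

theorem i12_1 (x) : inner ℝ (D2 (D1 f) x) (D1 f x) = 0 := by
  have h1 := D2_inn H.sD1 H.sD1 x
  have h2 : (fun y => inner ℝ (D1 f y) (D1 f y)) = fun _ => (1 : ℝ) := funext H.inn11
  rw [h2] at h1
  have h3 : D2 (fun _ : ℝ × ℝ => (1 : ℝ)) x = 0 := by simp [D2]
  rw [h3, real_inner_comm (D2 (D1 f) x)] at h1
  linarith

theorem i11_2 (x) : inner ℝ (D1 (D1 f) x) (D2 f x) = 0 := by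
  have h1 := D1_inn H.sD1 H.sD2 x
  have h2 : (fun y => inner ℝ (D1 f y) (D2 f y)) = fun _ => (0 : ℝ) := funext H.inn12
  rw [h2] at h1
  have h3 : D1 (fun _ : ℝ × ℝ => (0 : ℝ)) x = 0 := by simp [D1]
  rw [h3, D_comm H.smooth, real_inner_comm (D2 (D1 f) x) (D1 f x), H.i12_1] at h1
  linarith

theorem i12_2 (x : ℝ × ℝ) : inner ℝ (D2 (D1 f) x) (D2 f x) = h x.1 * deriv h x.1 := by
  have h1 := D1_inn H.sD2 H.sD2 x
  have h2 : (fun y => inner ℝ (D2 f y) (D2 f y)) = fun y : ℝ × ℝ => h y.1 ^ 2 := funext H.inn22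
  rw [h2] at h1
  have h3 : D1 (fun y : ℝ × ℝ => h y.1 ^ 2) x = 2 * h x.1 * deriv h x.1 :=
    D1_fst (c := fun u => h u ^ 2) (((H.hd x.1).pow 2).congr_deriv (by simp))
  rw [h3, D_comm H.smooth, real_inner_comm (D2 (D1 f) x) (D2 f x)] at h1
  linarith

theorem i22_2 (x : ℝ × ℝ) : inner ℝ (D2 (D2 f) x) (D2 f x) = 0 := by
  have h1 := D2_inn H.sD2 H.sD2 x
  have h2 : (fun y => inner ℝ (D2 f y) (D2 f y)) = fun y : ℝ × ℝ => h y.1 ^ 2 := funext H.inn22
  rw [h2] at h1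
  have h3 : D2 (fun y : ℝ × ℝ => h y.1 ^ 2) x = 0 :=
    D2_fst (c := fun u => h u ^ 2) ((H.hd x.1).pow 2)
  rw [h3, real_inner_comm (D2 (D2 f) x)] at h1
  linarith

theorem i22_1 (x : ℝ × ℝ) : inner ℝ (D2 (D2 f) x) (D1 f x) = -(h x.1 * deriv h x.1) := by
  have h1 := D2_inn H.sD1 H.sD2 x
  have h2 : (fun y => inner ℝ (D1 f y) (D2 f y)) = fun _ => (0 : ℝ) := funext H.inn12
  rw [h2] at h1
  have h3 : D2 (fun _ : ℝ × ℝ => (0 : ℝ)) x = 0 := by simp [D2]
  rw [h3, H.i12_2, real_inner_comm (D2 (D2 f) x) (D1 f x)] at h1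
  linarith

/-- the Gauss equation, first form -/
theorem gauss0 (x : ℝ × ℝ) : inner ℝ (D1 (D1 f) x) (D2 (D2 f) x) -
    inner ℝ (D2 (D1 f) x) (D2 (D1 f) x) = -(deriv h x.1 ^ 2 + h x.1 * deriv (deriv h) x.1) := by
  have h1 := D1_inn H.sD22 H.sD1 x
  have h2 : (fun y => inner ℝ (D2 (D2 f) y) (D1 f y)) =
      fun y : ℝ × ℝ => -(h y.1 * deriv h y.1) := funext H.i22_1
  rw [h2] at h1
  have h3 : D1 (fun y : ℝ × ℝ => -(h y.1 * deriv h y.1)) x =
      -(deriv h x.1 * deriv h x.1 + h x.1 * deriv (deriv h) x.1) :=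
    D1_fst (c := fun u => -(h u * deriv h u)) (((H.hd x.1).mul (H.hdd x.1)).neg)
  rw [h3] at h1
  have k1 := D2_inn H.sD12 H.sD1 x
  have k2 : (fun y => inner ℝ (D2 (D1 f) y) (D1 f y)) = fun _ => (0 : ℝ) := funext H.i12_1
  rw [k2] at k1
  have k3 : D2 (fun _ : ℝ × ℝ => (0 : ℝ)) x = 0 := by simp [D2]
  rw [k3] at k1
  have e1 : D1 (D2 (D2 f)) x = D2 (D2 (D1 f)) x := by
    rw [D_comm H.sD2, D_comm H.smooth]
  rw [e1] at h1
  rw [real_inner_comm (D2 (D2 f) x) (D1 (D1 f) x)]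
  linarith

/-- the Gauss equation -/
theorem gauss (x : ℝ × ℝ) :
    inner ℝ (D1 (D1 f) x) (cr (D1 f x) (D2 f x)) * inner ℝ (D2 (D2 f) x) (cr (D1 f x) (D2 f x)) -
      inner ℝ (D2 (D1 f) x) (cr (D1 f x) (D2 f x)) ^ 2 = -(h x.1 ^ 3 * deriv (deriv h) x.1) := by
  have h0 := H.gauss0 x
  have e1 := gram (D1 (D1 f) x) (D2 (D2 f) x) (D1 f x) (D2 f x)
  have e2 := gram (D2 (D1 f) x) (D2 (D1 f) x) (D1 f x) (D2 f x)
  rw [H.inn11, H.inn12, H.inn22, H.i11_1, H.i11_2, H.i22_2, H.i22_1] at e1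
  rw [H.inn11, H.inn12, H.inn22, H.i12_1, H.i12_2] at e2
  linear_combination e1 - e2 + (h x.1 ^ 2) * h0

end RevImm

/-- the unit normal -/
noncomputable def nor (h : ℝ → ℝ) (f : ℝ × ℝ → E3) (x : ℝ × ℝ) : E3 :=
  (h x.1)⁻¹ • cr (D1 f x) (D2 f x)

theorem smooth_cr {a b : ℝ × ℝ → E3} (ha : ContDiff ℝ ∞ a) (hb : ContDiff ℝ ∞ b) :
    ContDiff ℝ ∞ (fun x => cr (a x) (b x)) := by
  have ha' := fun i => (contDiff_euclidean.mp ha) i
  have hb' := fun i => (contDiff_euclidean.mp hb) i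
  rw [contDiff_euclidean]
  intro i
  fin_cases i
  · simpa using ((ha' 1).mul (hb' 2)).sub ((ha' 2).mul (hb' 1))
  · simpa using ((ha' 2).mul (hb' 0)).sub ((ha' 0).mul (hb' 2))
  · simpa using ((ha' 0).mul (hb' 1)).sub ((ha' 1).mul (hb' 0))

namespace RevImm

variable {h : ℝ → ℝ} {f : ℝ × ℝ → E3} (H : RevImm h f)

include H

theorem smooth_nor : ContDiff ℝ ∞ (nor h f) := by
  have h1 : ContDiff ℝ ∞ (fun x : ℝ × ℝ => (h x.1)⁻¹) :=
    (H.smooth_h.comp contDiff_fst).inv (fun x => (H.pos x.1).ne')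
  exact h1.smul (smooth_cr H.sD1 H.sD2)

theorem nor_1 (x) : inner ℝ (nor h f x) (D1 f x) = 0 := by
  rw [nor, inner_smul_left, cr_left, mul_zero]

theorem nor_2 (x) : inner ℝ (nor h f x) (D2 f x) = 0 := by
  rw [nor, inner_smul_left, cr_right, mul_zero]

theorem nor_nor (x) : inner ℝ (nor h f x) (nor h f x) = 1 := by
  have hp := (H.pos x.1).ne'
  rw [nor, inner_smul_left, inner_smul_right]
  have e := gram (cr (D1 f x) (D2 f x)) (cr (D1 f x) (D2 f x)) (D1 f x) (D2 f x)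
  rw [cr_left, cr_right, H.inn11, H.inn22, H.inn12] at e
  set z := inner ℝ (cr (D1 f x) (D2 f x)) (cr (D1 f x) (D2 f x)) with hz
  have hz0 : z ≠ 0 := by
    intro h0
    rw [hz, inner_self_eq_zero] at h0
    have k := gram (D1 f x) (D1 f x) (D1 f x) (D2 f x)
    -- use a vector with nonzero triple product: the squared norm of the cross product
    have k2 : z = inner ℝ (D1 f x) (D1 f x) * inner ℝ (D2 f x) (D2 f x) -
        inner ℝ (D1 f x) (D2 f x) ^ 2 := by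
      simp only [hz, inn3, cr_zero, cr_one, cr_two]; ring
    rw [H.inn11, H.inn22, H.inn12, hz, h0, inner_zero_left] at k2
    have : h x.1 ^ 2 = 0 := by linarith
    exact hp (pow_eq_zero_iff (two_ne_zero)|>.mp this)
  have e2 : z = h x.1 ^ 2 := by
    have : z * (z - h x.1 ^ 2) = 0 := by linear_combination e
    rcases mul_eq_zero.mp this with h1 | h1
    · exact absurd h1 hz0
    · linarith
  rw [e2]
  simp only [conj_trivial]
  field_simp

/-- coefficients of the second fundamental form -/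
theorem dnor_11 (x) : inner ℝ (D1 (nor h f) x) (D1 f x) = - inner ℝ (nor h f x) (D1 (D1 f) x) := by
  have h1 := D1_inn H.smooth_nor H.sD1 x
  rw [show (fun y => inner ℝ (nor h f y) (D1 f y)) = fun _ => (0 : ℝ) from funext H.nor_1,
    show D1 (fun _ : ℝ × ℝ => (0 : ℝ)) x = 0 by simp [D1]] at h1
  linarith

theorem dnor_12 (x) : inner ℝ (D1 (nor h f) x) (D2 f x) = - inner ℝ (nor h f x) (D2 (D1 f) x) := by
  have h1 := D1_inn H.smooth_nor H.sD2 x
  rw [show (fun y => inner ℝ (nor h f y) (D2 f y)) = fun _ => (0 : ℝ) from funext H.nor_2,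
    show D1 (fun _ : ℝ × ℝ => (0 : ℝ)) x = 0 by simp [D1], D_comm H.smooth] at h1
  linarith

theorem dnor_21 (x) : inner ℝ (D2 (nor h f) x) (D1 f x) = - inner ℝ (nor h f x) (D2 (D1 f) x) := by
  have h1 := D2_inn H.smooth_nor H.sD1 x
  rw [show (fun y => inner ℝ (nor h f y) (D1 f y)) = fun _ => (0 : ℝ) from funext H.nor_1,
    show D2 (fun _ : ℝ × ℝ => (0 : ℝ)) x = 0 by simp [D2]] at h1
  linarith

theorem dnor_22 (x) : inner ℝ (D2 (nor h f) x) (D2 f x) = - inner ℝ (nor h f x) (D2 (D2 f) x) := by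
  have h1 := D2_inn H.smooth_nor H.sD2 x
  rw [show (fun y => inner ℝ (nor h f y) (D2 f y)) = fun _ => (0 : ℝ) from funext H.nor_2,
    show D2 (fun _ : ℝ × ℝ => (0 : ℝ)) x = 0 by simp [D2]] at h1
  linarith

theorem dnor_n1 (x) : inner ℝ (D1 (nor h f) x) (nor h f x) = 0 := by
  have h1 := D1_inn H.smooth_nor H.smooth_nor x
  rw [show (fun y => inner ℝ (nor h f y) (nor h f y)) = fun _ => (1 : ℝ) from funext H.nor_nor,
    show D1 (fun _ : ℝ × ℝ => (1 : ℝ)) x = 0 by simp [D1], real_inner_comm (D1 (nor h f) x)] at h1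
  linarith

theorem dnor_n2 (x) : inner ℝ (D2 (nor h f) x) (nor h f x) = 0 := by
  have h1 := D2_inn H.smooth_nor H.smooth_nor x
  rw [show (fun y => inner ℝ (nor h f y) (nor h f y)) = fun _ => (1 : ℝ) from funext H.nor_nor,
    show D2 (fun _ : ℝ × ℝ => (1 : ℝ)) x = 0 by simp [D2], real_inner_comm (D2 (nor h f) x)] at h1
  linarith

theorem inn_cr (a : E3) (x) : inner ℝ a (cr (D1 f x) (D2 f x)) = h x.1 * inner ℝ a (nor h f x) := by
  have hp := (H.pos x.1).ne'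
  rw [nor, inner_smul_right]
  field_simp

/-- the second fundamental form -/
theorem gauss' (x : ℝ × ℝ) :
    inner ℝ (nor h f x) (D1 (D1 f) x) * inner ℝ (nor h f x) (D2 (D2 f) x) -
      inner ℝ (nor h f x) (D2 (D1 f) x) ^ 2 = -(h x.1 * deriv (deriv h) x.1) := by
  have h0 := H.gauss x
  have hp := (H.pos x.1).ne'
  simp only [H.inn_cr] at h0
  rw [real_inner_comm (D1 (D1 f) x) (nor h f x), real_inner_comm (D2 (D2 f) x) (nor h f x),
    real_inner_comm (D2 (D1 f) x) (nor h f x)]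
  have : h x.1 ^ 2 * (inner ℝ (D1 (D1 f) x) (nor h f x) * inner ℝ (D2 (D2 f) x) (nor h f x) -
      inner ℝ (D2 (D1 f) x) (nor h f x) ^ 2 + h x.1 * deriv (deriv h) x.1) = 0 := by
    linear_combination h0
  rcases mul_eq_zero.mp this with h1 | h1
  · exact absurd (pow_eq_zero_iff two_ne_zero |>.mp h1) hp
  · linarith

/-- inner products of tangent vectors -/
theorem tang (a b : E3) (x) (ha : inner ℝ a (nor h f x) = 0) : h x.1 ^ 2 * inner ℝ a b =
    h x.1 ^ 2 * (inner ℝ a (D1 f x) * inner ℝ b (D1 f x)) +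
      inner ℝ a (D2 f x) * inner ℝ b (D2 f x) := by
  have e := gram a b (D1 f x) (D2 f x)
  rw [H.inn_cr, ha, mul_zero, zero_mul, H.inn11, H.inn22, H.inn12] at e
  linear_combination -e

/-- the Jacobian of the Gauss map -/
theorem tri_nor (x) : |tri (nor h f x) (D1 (nor h f) x) (D2 (nor h f) x)| = |deriv (deriv h) x.1| := by
  have hp := (H.pos x.1).ne'
  rw [← sq_eq_sq_iff_abs_eq_abs, tri_sq, H.nor_nor, real_inner_comm _ (nor h f x), H.dnor_n1,
    real_inner_comm (D2 (nor h f) x) (nor h f x), H.dnor_n2]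
  have g := H.gauss' x
  have t11 := H.tang (D1 (nor h f) x) (D1 (nor h f) x) x (H.dnor_n1 x)
  have t12 := H.tang (D1 (nor h f) x) (D2 (nor h f) x) x (H.dnor_n1 x)
  have t22 := H.tang (D2 (nor h f) x) (D2 (nor h f) x) x (H.dnor_n2 x)
  rw [H.dnor_11, H.dnor_12] at t11
  rw [H.dnor_11, H.dnor_12, H.dnor_21, H.dnor_22] at t12
  rw [H.dnor_21, H.dnor_22] at t22
  set L := inner ℝ (nor h f x) (D1 (D1 f) x)
  set M := inner ℝ (nor h f x) (D2 (D1 f) x)
  set P := inner ℝ (nor h f x) (D2 (D2 f) x)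
  set a := inner ℝ (D1 (nor h f) x) (D1 (nor h f) x)
  set b := inner ℝ (D1 (nor h f) x) (D2 (nor h f) x)
  set c := inner ℝ (D2 (nor h f) x) (D2 (nor h f) x)
  set k := h x.1
  set d := deriv (deriv h) x.1
  have hk4 : k ^ 4 ≠ 0 := pow_ne_zero _ hp
  have hk2 : k ^ 2 ≠ 0 := pow_ne_zero _ hp
  have ea : a = L ^ 2 + M ^ 2 / k ^ 2 := by
    field_simp
    linear_combination t11
  have eb : b = L * M + M * P / k ^ 2 := by
    field_simp
    linear_combination t12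
  have ec : c = M ^ 2 + P ^ 2 / k ^ 2 := by
    field_simp
    linear_combination t22
  have ed : d = -(L * P - M ^ 2) / k := by
    field_simp
    linear_combination g
  rw [ea, eb, ec, ed]
  field_simp
  ring

end RevImm

end Pool.Agent.X178.Tor
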