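import Pool.Agent.X178.Tor.Defs

/-! Vector algebra in Euclidean three-space: cross products, Gram determinants, the determinant of the
derivative of a cone map. -/

namespace Pool.Agent.X178.Tor

open Set

/-- the inner product in coordinates -/
theorem inn3 (a b : E3) : inner ℝ a b = a 0 * b 0 + a 1 * b 1 + a 2 * b 2 := by
  simp only [PiLp.inner_apply, Fin.sum_univ_three, RCLike.inner_apply, conj_trivial]
  ring

/-- the cross product -/
noncomputable def cr (a b : E3) : E3 :=
  !₂[a 1 * b 2 - a 2 * b 1, a 2 * b 0 - a 0 * b 2, a 0 * b 1 - a 1 * b 0]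

@[simp] theorem cr_zero (a b : E3) : cr a b 0 = a 1 * b 2 - a 2 * b 1 := by simp [cr]
@[simp] theorem cr_one (a b : E3) : cr a b 1 = a 2 * b 0 - a 0 * b 2 := by simp [cr]
@[simp] theorem cr_two (a b : E3) : cr a b 2 = a 0 * b 1 - a 1 * b 0 := by simp [cr]

theorem cr_left (a b : E3) : inner ℝ (cr a b) a = 0 := by
  simp only [inn3, cr_zero, cr_one, cr_two]; ring

theorem cr_right (a b : E3) : inner ℝ (cr a b) b = 0 := by
  simp only [inn3, cr_zero, cr_one, cr_two]; ring

theorem gram (a b p q : E3) : inner ℝ a (cr p q) * inner ℝ b (cr p q) =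
    inner ℝ a b * (inner ℝ p p * inner ℝ q q - inner ℝ p q ^ 2)
    - inner ℝ a p * (inner ℝ b p * inner ℝ q q - inner ℝ p q * inner ℝ b q)
    + inner ℝ a q * (inner ℝ b p * inner ℝ p q - inner ℝ p p * inner ℝ b q) := by
  simp only [inn3, cr_zero, cr_one, cr_two]; ring

/-- the triple product -/
noncomputable def tri (a b c : E3) : ℝ := inner ℝ a (cr b c)

theorem tri_sq (a b c : E3) : tri a b c ^ 2 =
    inner ℝ a a * (inner ℝ b b * inner ℝ c c - inner ℝ b c ^ 2)
    - inner ℝ a b * (inner ℝ a b * inner ℝ c c - inner ℝ b c * inner ℝ a c)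
    + inner ℝ a c * (inner ℝ a b * inner ℝ b c - inner ℝ b b * inner ℝ a c) := by
  rw [sq, tri, gram]

/-- the linear map with columns `n, a, b` -/
noncomputable def colMap (n a b : E3) : E3 →L[ℝ] E3 :=
  (EuclideanSpace.proj (𝕜 := ℝ) (0 : Fin 3)).smulRight n +
    ((EuclideanSpace.proj (𝕜 := ℝ) (1 : Fin 3)).smulRight a +
      (EuclideanSpace.proj (𝕜 := ℝ) (2 : Fin 3)).smulRight b)

theorem colMap_apply (n a b w : E3) : colMap n a b w = w 0 • n + (w 1 • a + w 2 • b) := rfl

theorem det_colMap (n a b : E3) : (colMap n a b).det = tri n a b := by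
  have h : (colMap n a b).det =
      (LinearMap.toMatrix (EuclideanSpace.basisFun (Fin 3) ℝ).toBasis
        (EuclideanSpace.basisFun (Fin 3) ℝ).toBasis (colMap n a b : E3 →ₗ[ℝ] E3)).det := by
    rw [LinearMap.det_toMatrix]
  rw [h, Matrix.det_fin_three]
  have e : ∀ i j, LinearMap.toMatrix (EuclideanSpace.basisFun (Fin 3) ℝ).toBasis
        (EuclideanSpace.basisFun (Fin 3) ℝ).toBasis (colMap n a b : E3 →ₗ[ℝ] E3) i j =
        (colMap n a b (EuclideanSpace.single j 1)) i := by
    intro i j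
    rw [LinearMap.toMatrix_apply]
    simp [EuclideanSpace.basisFun_apply, EuclideanSpace.basisFun_repr]
  simp only [e, colMap_apply, tri, inn3, cr_zero, cr_one, cr_two, PiLp.add_apply, PiLp.smul_apply,
    smul_eq_mul, PiLp.single_apply]
  simp
  ring

end Pool.Agent.X178.Tor
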